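import Pool.Agent.K1H19.Kom.Stm

/-!
# Whitney levels
-/

set_option autoImplicit false

namespace K19Kom.H96

/-- the condition for the level `p` -/
def Pc (l T p : ℕ) : Prop := (T / 2 ^ p + 2) * 2 ^ p ≤ l

instance (l T p : ℕ) : Decidable (Pc l T p) := inferInstanceAs (Decidable (_ ≤ _))

theorem lvl_eq (l T : ℕ) : lvl l T = Nat.findGreatest (fun p => Pc l T p) l := rfl

theorem Pc_succ {l T p : ℕ} (h : Pc l T (p + 1)) : Pc l T p := by
  unfold Pc at *
  have h1 : T / 2 ^ (p + 1) = T / 2 ^ p / 2 := by rw [pow_succ, Nat.div_div_eq_div_mul]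
  rw [h1] at h
  set q := T / 2 ^ p
  have h2 : q + 2 ≤ (q / 2 + 2) * 2 := by omega
  calc (q + 2) * 2 ^ p ≤ ((q / 2 + 2) * 2) * 2 ^ p := Nat.mul_le_mul_right _ h2
    _ = (q / 2 + 2) * 2 ^ (p + 1) := by ring
    _ ≤ l := h

theorem Pc_mono {l T p q : ℕ} (hpq : p ≤ q) (h : Pc l T q) : Pc l T p := by
  induction q, hpq using Nat.le_induction with
  | base => exact h
  | succ n _ ih => exact ih (Pc_succ h)

theorem Pc_lt {l T p : ℕ} (h : Pc l T p) : T + 2 ^ p < l := by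
  unfold Pc at h
  have h0 : 0 < 2 ^ p := Nat.two_pow_pos p
  have h1 := Nat.div_add_mod T (2 ^ p)
  have h2 := Nat.mod_lt T h0
  have h3 : (T / 2 ^ p + 2) * 2 ^ p = 2 ^ p * (T / 2 ^ p) + 2 * 2 ^ p := by ring
  omega

theorem Pc_le {l T p : ℕ} (h : Pc l T p) : p < l := by
  have h1 := Pc_lt h
  have h2 : p < 2 ^ p := Nat.lt_two_pow_self
  omega

theorem not_Pc {l T p : ℕ} (h : ¬ Pc l T (p + 1)) : l < T + 4 * 2 ^ p := by
  unfold Pc at h
  push Not at h
  have h1 := Nat.div_mul_le_self T (2 ^ (p + 1))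
  have h2 : (T / 2 ^ (p + 1) + 2) * 2 ^ (p + 1) = T / 2 ^ (p + 1) * 2 ^ (p + 1) + 4 * 2 ^ p := by
    ring
  omega

theorem lvl_spec {l T : ℕ} (h : lvl l T ≠ 0) : Pc l T (lvl l T) :=
  Nat.findGreatest_of_ne_zero (P := fun p => Pc l T p) (lvl_eq l T).symm h

theorem lvl_not (l T : ℕ) : ¬ Pc l T (lvl l T + 1) := by
  intro h
  have h1 := Pc_le h
  have h2 : lvl l T + 1 ≤ lvl l T := by
    conv_rhs => rw [lvl_eq]
    exact Nat.le_findGreatest (P := fun p => Pc l T p) h1.le h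
  omega

theorem lvl_iff {l T p : ℕ} (hp : p ≠ 0) : lvl l T = p ↔ Pc l T p ∧ ¬ Pc l T (p + 1) := by
  constructor
  · intro h
    subst h
    exact ⟨lvl_spec hp, lvl_not l T⟩
  · rintro ⟨h1, h2⟩
    have h3 : p ≤ lvl l T := by
      rw [lvl_eq]
      exact Nat.le_findGreatest (P := fun p => Pc l T p) (Pc_le h1).le h1
    rcases h3.eq_or_lt with h4 | h4
    · exact h4.symm
    · exfalso
      exact h2 (Pc_mono h4 (lvl_spec (by omega)))

theorem Pc_step {l T p : ℕ} (h : ¬ 2 ^ p ∣ T + 1) : Pc l T p ↔ Pc l (T + 1) p := by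
  unfold Pc
  have : (T + 1) / 2 ^ p = T / 2 ^ p := by
    rw [Nat.succ_div, if_neg h, add_zero]
  rw [this]

end K19Kom.H96

namespace K19Kom

theorem t_WHIT : S_WHIT := by
  refine ⟨fun l T h => ?_, fun l T h => ?_, fun l T p h => ?_⟩
  · by_cases h0 : lvl l T = 0
    · rw [h0, pow_zero]
      omega
    · exact (H96.Pc_lt (H96.lvl_spec h0)).le
  · exact H96.not_Pc (H96.lvl_not l T)
  · have hp : p ≠ 0 := by
      rintro rfl
      exact h (by simp)
    have h' : ¬ 2 ^ (p + 1) ∣ T + 1 := fun h2 => h ((pow_dvd_pow 2 (Nat.le_succ p)).trans h2)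
    rw [H96.lvl_iff hp, H96.lvl_iff hp, ← H96.Pc_step h, ← H96.Pc_step h']
    constructor
    · rintro ⟨-, h1, h2⟩
      have h3 := H96.Pc_lt h1
      have h4 : 0 < 2 ^ p := Nat.two_pow_pos p
      refine ⟨?_, h1, h2⟩
      omega
    · rintro ⟨h0, h1, h2⟩
      exact ⟨by omega, h1, h2⟩

end K19Kom
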